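import Pool.Agent.Run7.h573.FK.Iface

/-!
# Project FK, piece P1: the free Abelian topological group of a compact space is a `k_ℝ`-space
-/

set_option autoImplicit false

namespace Run7.h763.FK

open Topology Filter Set Pool.Agent.Run7.h573.FK

universe u

variable {C : Type u}

/-- the differences of the pairs in `V` -/
def DD (V : Set (C × C)) : Set (FreeAbelianGroup C) :=
  {s | ∃ x y : C, (x, y) ∈ V ∧ s = FreeAbelianGroup.of x - FreeAbelianGroup.of y}

/-- the finite sums of differences of the pairs in `U 0, U 1, …` -/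
def NN (U : ℕ → Set (C × C)) : Set (FreeAbelianGroup C) :=
  {s | ∃ (a : ℕ → FreeAbelianGroup C) (n : ℕ), (∀ i, a i ∈ DD (U i)) ∧ (∀ i, n ≤ i → a i = 0) ∧
    s = ∑ i ∈ Finset.range n, a i}

lemma DD_mono {V V' : Set (C × C)} (h : V ⊆ V') : DD V ⊆ DD V' := by
  rintro s ⟨x, y, hxy, rfl⟩
  exact ⟨x, y, h hxy, rfl⟩

lemma NN_mono {U U' : ℕ → Set (C × C)} (h : ∀ i, U i ⊆ U' i) : NN U ⊆ NN U' := by
  rintro s ⟨a, n, ha, hn, rfl⟩
  exact ⟨a, n, fun i => DD_mono (h i) (ha i), hn, rfl⟩

lemma sum_ext_range (a : ℕ → FreeAbelianGroup C) (n m : ℕ) (h : n ≤ m) (hn : ∀ i, n ≤ i → a i = 0) :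
    ∑ i ∈ Finset.range n, a i = ∑ i ∈ Finset.range m, a i := by
  apply Finset.sum_subset (Finset.range_mono h)
  intro i _ hi
  exact hn i (by simpa using hi)

lemma sum_two_mul (g : ℕ → FreeAbelianGroup C) (n : ℕ) :
    ∑ j ∈ Finset.range (2 * n), g j = ∑ i ∈ Finset.range n, g (2 * i) +
      ∑ i ∈ Finset.range n, g (2 * i + 1) := by
  induction n with
  | zero => simp
  | succ n ih =>
    rw [show 2 * (n + 1) = 2 * n + 1 + 1 by ring, Finset.sum_range_succ, Finset.sum_range_succ, ih,
      Finset.sum_range_succ, Finset.sum_range_succ]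
    abel

/-- the good sequences -/
def Gd [TopologicalSpace C] (U : ℕ → Set (C × C)) : Prop := ∀ i, IsOpen (U i) ∧ ∀ x, (x, x) ∈ U i

/-- the group topology given by the sets `NN U` -/
noncomputable def bas (C : Type u) [TopologicalSpace C] [Nonempty C] :
    AddGroupFilterBasis (FreeAbelianGroup C) :=
  addGroupFilterBasisOfComm {s | ∃ U, Gd U ∧ s = NN U}
    ⟨NN fun _ => univ, fun _ => univ, fun _ => ⟨isOpen_univ, fun _ => mem_univ _⟩, rfl⟩
    (by
      rintro _ _ ⟨U, hU, rfl⟩ ⟨V, hV, rfl⟩
      refine ⟨NN fun i => U i ∩ V i, ⟨_, fun i => ⟨(hU i).1.inter (hV i).1, fun x =>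
        ⟨(hU i).2 x, (hV i).2 x⟩⟩, rfl⟩, subset_inter (NN_mono fun i => inter_subset_left)
        (NN_mono fun i => inter_subset_right)⟩)
    (by
      rintro _ ⟨U, hU, rfl⟩
      refine ⟨fun _ => 0, 0, fun i => ?_, fun _ _ => rfl, by simp⟩
      exact ⟨Classical.arbitrary C, Classical.arbitrary C, (hU i).2 _, by simp⟩)
    (by
      rintro _ ⟨U, hU, rfl⟩
      refine ⟨NN fun i => U (2 * i) ∩ U (2 * i + 1), ⟨_, fun i => ⟨(hU _).1.inter (hU _).1, fun x =>
        ⟨(hU _).2 x, (hU _).2 x⟩⟩, rfl⟩, ?_⟩
      rintro _ ⟨_, ⟨a, n, ha, hn, rfl⟩, _, ⟨b, m, hb, hm, rfl⟩, rfl⟩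
      refine ⟨fun j => if j % 2 = 0 then a (j / 2) else b (j / 2), 2 * max n m, ?_, ?_, ?_⟩
      · intro j
        rcases Nat.even_or_odd' j with ⟨i, rfl | rfl⟩
        · have h1 : (2 * i) % 2 = 0 := by omega
          have h2 : 2 * i / 2 = i := by omega
          simp only [h1, if_true, h2]
          exact DD_mono inter_subset_left (ha i)
        · have h1 : ¬ (2 * i + 1) % 2 = 0 := by omega
          have h2 : (2 * i + 1) / 2 = i := by omega
          simp only [h1, if_false, h2]
          exact DD_mono inter_subset_right (hb i)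
      · intro j hj
        have h1 : n ≤ j / 2 := by omega
        have h2 : m ≤ j / 2 := by omega
        simp only [hn _ h1, hm _ h2, ite_self]
      · rw [sum_two_mul]
        simp only
        congr 1
        · rw [sum_ext_range a n (max n m) (le_max_left _ _) hn]
          apply Finset.sum_congr rfl
          intro i _
          have h1 : (2 * i) % 2 = 0 := by omega
          have h2 : 2 * i / 2 = i := by omega
          simp only [h1, if_true, h2]
        · rw [sum_ext_range b m (max n m) (le_max_right _ _) hm]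
          apply Finset.sum_congr rfl
          intro i _
          have h1 : ¬ (2 * i + 1) % 2 = 0 := by omega
          have h2 : (2 * i + 1) / 2 = i := by omega
          simp only [h1, if_false, h2])
    (by
      rintro _ ⟨U, hU, rfl⟩
      refine ⟨NN fun i => Prod.swap ⁻¹' U i, ⟨_, fun i => ⟨(hU i).1.preimage continuous_swap,
        fun x => (hU i).2 x⟩, rfl⟩, ?_⟩
      rintro _ ⟨a, n, ha, hn, rfl⟩
      refine ⟨fun i => - a i, n, ?_, ?_, ?_⟩
      · intro i
        obtain ⟨x, y, hxy, h⟩ := ha i
        exact ⟨y, x, hxy, by show -a i = _; rw [h]; abel⟩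
      · intro i hi
        simp [hn i hi]
      · simp)

lemma bas_of [TopologicalSpace C] [Nonempty C] :
    @Continuous _ _ _ (bas C).topology (FreeAbelianGroup.of : C → FreeAbelianGroup C) := by
  let _ := (bas C).topology
  rw [continuous_iff_continuousAt]
  intro x₀
  rw [ContinuousAt, ((bas C).nhds_hasBasis (FreeAbelianGroup.of x₀)).tendsto_right_iff]
  rintro _ ⟨U, hU, rfl⟩
  have h1 : ∀ᶠ x in 𝓝 x₀, (x, x₀) ∈ U 0 := by
    have hc : Continuous fun x : C => (x, x₀) := by fun_prop
    exact hc.continuousAt.eventually ((hU 0).1.mem_nhds ((hU 0).2 x₀))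
  filter_upwards [h1] with x hx
  refine ⟨FreeAbelianGroup.of x - FreeAbelianGroup.of x₀,
    ⟨fun i => if i = 0 then FreeAbelianGroup.of x - FreeAbelianGroup.of x₀ else 0, 1, ?_, ?_, ?_⟩, ?_⟩
  · intro i
    by_cases hi : i = 0
    · subst hi
      simp only [if_true]
      exact ⟨x, x₀, hx, rfl⟩
    · simp only [hi, if_false]
      exact ⟨x₀, x₀, (hU i).2 _, by simp⟩
  · intro i hi
    have : i ≠ 0 := by omega
    simp [this]
  · simp
  · simp

lemma NN_mem [TopologicalSpace C] [Nonempty C] (U : ℕ → Set (C × C)) (hU : Gd U) :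
    NN U ∈ @nhds _ (freeTop C) 0 := by
  have h1 : freeTop C ≤ (bas C).topology := sInf_le ⟨(bas C).isTopologicalAddGroup, bas_of⟩
  have h2 : @nhds _ (freeTop C) (0 : FreeAbelianGroup C) ≤ @nhds _ (bas C).topology 0 :=
    nhds_mono h1
  exact h2 ((bas C).mem_nhds_zero ⟨U, hU, rfl⟩)

lemma freeTop_group (X : Type u) [TopologicalSpace X] :
    @IsTopologicalAddGroup _ (freeTop X) _ :=
  topologicalAddGroup_sInf fun _ ht => ht.1

lemma freeTop_of (X : Type u) [TopologicalSpace X] :
    @Continuous _ _ _ (freeTop X) (FreeAbelianGroup.of : X → FreeAbelianGroup X) := by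
  rw [freeTop, continuous_sInf_rng]
  exact fun t ht => ht.2

theorem t_P1 : S_P1.{u} := by
  intro C _ _ _
  rcases isEmpty_or_nonempty C with hC | hC
  · intro f _
    have : Subsingleton (FreeAbelianGroup C) := by
      refine ⟨fun a b => ?_⟩
      have h0 : ∀ a : FreeAbelianGroup C, a = 0 := fun a =>
        FreeAbelianGroup.induction_on a rfl (fun x => isEmptyElim x) (fun x => isEmptyElim x)
          (fun x y hx hy => by rw [hx, hy, add_zero])
      rw [h0 a, h0 b]
    let _ := freeTop C
    exact continuous_of_const fun x y => by rw [Subsingleton.elim x y]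
  let _ := freeTop C
  have : IsTopologicalAddGroup (FreeAbelianGroup C) := freeTop_group C
  have hof : Continuous (FreeAbelianGroup.of : C → FreeAbelianGroup C) := freeTop_of C
  intro f hf
  rw [continuous_iff_continuousAt]
  intro a₀
  rw [ContinuousAt, Metric.tendsto_nhds]
  intro ε hε
  -- the maps
  let Φ : ∀ n : ℕ, (Fin n → C × C) × (C × C) → FreeAbelianGroup C := fun n z =>
    a₀ + ∑ i, (FreeAbelianGroup.of (z.1 i).1 - FreeAbelianGroup.of (z.1 i).2) +
      (FreeAbelianGroup.of z.2.1 - FreeAbelianGroup.of z.2.2)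
  have hΦ : ∀ n, Continuous (Φ n) := by
    intro n
    have h1 : ∀ i : Fin n, Continuous fun z : (Fin n → C × C) × (C × C) =>
        FreeAbelianGroup.of (z.1 i).1 - FreeAbelianGroup.of (z.1 i).2 := by
      intro i
      exact (hof.comp (by fun_prop)).sub (hof.comp (by fun_prop))
    have h2 : Continuous fun z : (Fin n → C × C) × (C × C) =>
        FreeAbelianGroup.of z.2.1 - FreeAbelianGroup.of z.2.2 :=
      (hof.comp (by fun_prop)).sub (hof.comp (by fun_prop))
    exact (continuous_const.add (continuous_finsetSum _ fun i _ => h1 i)).add h2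
  have hG : ∀ n, Continuous fun z => f (Φ n z) := by
    intro n
    have h1 := hf (range (Φ n)) (isCompact_range (hΦ n))
    exact h1.comp_continuous (hΦ n) fun z => mem_range_self z
  let U : ℕ → Set (C × C) := fun n => {q | ∀ p : Fin n → C × C,
    |f (Φ n (p, q)) - f (Φ n (p, (q.1, q.1)))| < ε / 2 ^ (n + 2)}
  have hU : Gd U := by
    intro n
    constructor
    · have h1 : IsClosed (Prod.snd '' {z : (Fin n → C × C) × (C × C) |
          ε / 2 ^ (n + 2) ≤ |f (Φ n z) - f (Φ n (z.1, (z.2.1, z.2.1)))|}) := by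
        apply isClosedMap_snd_of_compactSpace
        have h2 : Continuous fun z : (Fin n → C × C) × (C × C) =>
            |f (Φ n z) - f (Φ n (z.1, (z.2.1, z.2.1)))| := by
          have h3 : Continuous fun z : (Fin n → C × C) × (C × C) =>
              ((z.1, (z.2.1, z.2.1)) : (Fin n → C × C) × (C × C)) := by fun_prop
          exact ((hG n).sub ((hG n).comp h3)).abs
        exact isClosed_le continuous_const h2
      have h4 : U n = (Prod.snd '' {z : (Fin n → C × C) × (C × C) |
          ε / 2 ^ (n + 2) ≤ |f (Φ n z) - f (Φ n (z.1, (z.2.1, z.2.1)))|})ᶜ := by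
        ext q
        constructor
        · rintro h ⟨z, hz, hq⟩
          have h5 := h z.1
          rw [← hq] at h5
          exact absurd h5 (not_lt.mpr hz)
        · intro h p
          by_contra h'
          exact h ⟨(p, q), not_lt.mp h', rfl⟩
      rw [h4]
      exact h1.isOpen_compl
    · intro x p
      simp only [sub_self, abs_zero]
      positivity
  have hN := NN_mem U hU
  -- the estimate
  have key : ∀ s ∈ NN U, |f (a₀ + s) - f a₀| < ε := by
    rintro s ⟨a, n, ha, hn, rfl⟩
    choose x y hxy hab using ha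
    have hstep : ∀ k, |f (a₀ + ∑ i ∈ Finset.range (k + 1), a i) -
        f (a₀ + ∑ i ∈ Finset.range k, a i)| < ε / 2 ^ (k + 2) := by
      intro k
      have h1 := hxy k (fun i : Fin k => (x i, y i))
      have h2 : Φ k (fun i : Fin k => (x i, y i), (x k, y k)) =
          a₀ + ∑ i ∈ Finset.range (k + 1), a i := by
        simp only [Φ]
        rw [Finset.sum_range_succ, ← Fin.sum_univ_eq_sum_range, ← add_assoc, hab k]
        congr 2
        apply Finset.sum_congr rfl
        intro i _
        rw [hab i]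
      have h3 : Φ k (fun i : Fin k => (x i, y i), (x k, x k)) =
          a₀ + ∑ i ∈ Finset.range k, a i := by
        simp only [Φ]
        rw [← Fin.sum_univ_eq_sum_range, sub_self, add_zero]
        congr 1
        apply Finset.sum_congr rfl
        intro i _
        rw [hab i]
      rw [h2] at h1
      simp only at h1
      rw [h3] at h1
      exact h1
    have hind : ∀ k, |f (a₀ + ∑ i ∈ Finset.range k, a i) - f a₀| ≤ ε / 2 * (1 - 1 / 2 ^ k) := by
      intro k
      induction k with
      | zero => simp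
      | succ k ih =>
        have h1 := hstep k
        have h2 : |f (a₀ + ∑ i ∈ Finset.range (k + 1), a i) - f a₀| ≤
            |f (a₀ + ∑ i ∈ Finset.range (k + 1), a i) - f (a₀ + ∑ i ∈ Finset.range k, a i)| +
            |f (a₀ + ∑ i ∈ Finset.range k, a i) - f a₀| := abs_sub_le _ _ _
        have h3 : ε / 2 * (1 - 1 / 2 ^ (k + 1)) = ε / 2 ^ (k + 2) + ε / 2 * (1 - 1 / 2 ^ k) := by
          field_simp
          ring
        linarith
    have h1 := hind n
    have h2 : ε / 2 * (1 - 1 / 2 ^ n) < ε := by
      have : (0 : ℝ) < 1 / 2 ^ n := by positivity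
      nlinarith
    exact lt_of_le_of_lt h1 h2
  have hmap : Tendsto (fun a : FreeAbelianGroup C => a - a₀) (𝓝 a₀) (𝓝 0) := by
    have : Continuous fun a : FreeAbelianGroup C => a - a₀ := by fun_prop
    simpa using this.tendsto a₀
  filter_upwards [hmap hN] with a ha
  have h1 := key (a - a₀) ha
  rw [Real.dist_eq]
  simpa using h1

end Run7.h763.FK
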